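import Pool.Agent.Helper732.HN.Defs

/-!
# Auxiliary results: gluing, interpolation, the topological part, enumerations

The proofs in this file are by helper528 (`glue_homeo`), helper525 (`exists_interp`), helper245
(`abs_hs`), helper59 (`abs_t5`), helper977 (`exists_z`) and helper288 (`exists_T`).
-/

set_option autoImplicit false

open Set Filter Topology

namespace Pool.Agent.Helper102.RZ

open Pool.Agent.Helper732.HN (Om R3 X)

/-- gluing countably many homeomorphisms with supports in disjoint shells -/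
theorem glue_homeo {Y : Type} [TopologicalSpace Y] (D : Y → ℝ) (hD : Continuous D) (δ : ℕ → ℝ)
    (hδ : StrictAnti δ) (hδ0 : Tendsto δ atTop (𝓝 0)) (N C : ℕ → Set Y)
    (hN : ∀ i, IsOpen (N i)) (hC : ∀ i, IsClosed (C i)) (hCN : ∀ i, C i ⊆ N i)
    (hND : ∀ i, ∀ x ∈ N i, δ (i + 1) < D x ∧ D x < δ i) (k : ℕ → Y ≃ₜ Y)
    (hid : ∀ i, ∀ x ∉ C i, k i x = x) :
    ∃ h : Y ≃ Y, (∀ i, ∀ x ∈ N i, h x = k i x ∧ h x ∈ N i) ∧ (∀ x, (∀ i, x ∉ N i) → h x = x) ∧
      ContinuousOn h {x | 0 < D x} ∧ ContinuousOn h.symm {x | 0 < D x} := by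
  classical
  have hlt : ∀ i j x, i < j → x ∈ N i → x ∈ N j → False := by
    intro i j x hij hi hj
    have h1 := (hND i x hi).1
    have h2 := (hND j x hj).2
    have h3 : δ j ≤ δ (i + 1) := hδ.antitone hij
    linarith
  have huniq : ∀ i j x, x ∈ N i → x ∈ N j → i = j := by
    intro i j x hi hj
    rcases lt_trichotomy i j with h | h | h
    · exact (hlt i j x h hi hj).elim
    · exact h
    · exact (hlt j i x h hj hi).elim
  -- general glue
  let G : (ℕ → Y ≃ₜ Y) → Y → Y := fun k x => if h : ∃ i, x ∈ N i then k h.choose x else x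
  have Gin : ∀ (k : ℕ → Y ≃ₜ Y) i x, x ∈ N i → G k x = k i x := by
    intro k i x hx
    have h : ∃ i, x ∈ N i := ⟨i, hx⟩
    simp only [G, dif_pos h]
    rw [huniq h.choose i x h.choose_spec hx]
  have Gout : ∀ (k : ℕ → Y ≃ₜ Y) x, (∀ i, x ∉ N i) → G k x = x := by
    intro k x hx
    have h : ¬ ∃ i, x ∈ N i := by
      rintro ⟨i, hi⟩; exact hx i hi
    simp only [G, dif_neg h]
  have Kmap : ∀ (k : ℕ → Y ≃ₜ Y), (∀ i, ∀ x ∉ C i, k i x = x) → ∀ i x, x ∈ N i → k i x ∈ N i := by
    intro k hid i x hx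
    by_contra hcon
    have h1 : k i x ∉ C i := fun h => hcon (hCN i h)
    have h2 := hid i _ h1
    have h3 : k i x = x := (k i).injective h2
    rw [h3] at hcon
    exact hcon hx
  have Gcont : ∀ (k : ℕ → Y ≃ₜ Y), (∀ i, ∀ x ∉ C i, k i x = x) →
      ContinuousOn (G k) {x | 0 < D x} := by
    intro k hid x hx
    have hx0 : 0 < D x := hx
    apply ContinuousAt.continuousWithinAt
    by_cases hxN : ∃ i, x ∈ N i
    · obtain ⟨i, hi⟩ := hxN
      have h1 : G k =ᶠ[𝓝 x] k i := by
        filter_upwards [(hN i).mem_nhds hi] with y hy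
        exact Gin k i y hy
      exact ((k i).continuous.continuousAt).congr h1.symm
    · obtain ⟨m, hm⟩ : ∃ m, δ m < D x := by
        have := (hδ0.eventually (gt_mem_nhds hx0)).exists
        exact this
      have hxC : ∀ i, x ∉ C i := fun i h => hxN ⟨i, hCN i h⟩
      have hU1 : ∀ᶠ y in 𝓝 x, δ m < D y := hD.continuousAt.eventually (lt_mem_nhds hm)
      have hU2 : ∀ᶠ y in 𝓝 x, ∀ i ∈ Finset.range m, y ∉ C i := by
        rw [Filter.eventually_all_finset]
        intro i _
        exact (hC i).isOpen_compl.mem_nhds (hxC i)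
      have h1 : G k =ᶠ[𝓝 x] id := by
        filter_upwards [hU1, hU2] with y hy1 hy2
        by_cases hyN : ∃ i, y ∈ N i
        · obtain ⟨i, hi⟩ := hyN
          have him : i < m := by
            by_contra hcon
            push Not at hcon
            have h2 := (hND i y hi).2
            have h3 : δ i ≤ δ m := hδ.antitone hcon
            linarith
          rw [Gin k i y hi]
          exact hid i y (hy2 i (Finset.mem_range.mpr him))
        · exact Gout k y (fun i hi => hyN ⟨i, hi⟩)
      exact continuousAt_id.congr h1.symm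
  have hid' : ∀ i, ∀ x ∉ C i, (fun i => (k i).symm) i x = x := by
    intro i x hx
    have := hid i x hx
    show (k i).symm x = x
    rw [Homeomorph.symm_apply_eq]
    exact this.symm
  have LR : ∀ (k k' : ℕ → Y ≃ₜ Y), (∀ i, ∀ x ∉ C i, k i x = x) → (∀ i x, k' i (k i x) = x) →
      ∀ x, G k' (G k x) = x := by
    intro k k' hid hkk x
    by_cases hxN : ∃ i, x ∈ N i
    · obtain ⟨i, hi⟩ := hxN
      rw [Gin k i x hi, Gin k' i _ (Kmap k hid i x hi)]
      exact hkk i x
    · have h0 : ∀ i, x ∉ N i := fun i hi => hxN ⟨i, hi⟩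
      rw [Gout k x h0, Gout k' x h0]
  refine ⟨⟨G k, G (fun i => (k i).symm), LR k _ hid (fun i x => (k i).symm_apply_apply x),
    LR _ k hid' (fun i x => (k i).apply_symm_apply x)⟩, ?_, ?_, ?_, ?_⟩
  · intro i x hx
    have h1 : G k x = k i x := Gin k i x hx
    refine ⟨h1, ?_⟩
    show G k x ∈ N i
    rw [h1]
    exact Kmap k hid i x hx
  · intro x hx
    exact Gout k x hx
  · exact Gcont k hid
  · exact Gcont _ hid'

/-- a continuous path with prescribed values along a sequence tending to `0` -/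
theorem exists_interp (u : ℕ → ℝ) (hu : StrictAnti u) (hpos : ∀ i, 0 < u i)
    (hu0 : Tendsto u atTop (𝓝 0)) (b : ℕ → ℝ × ℝ) (b0 : ℝ × ℝ) (hb : Tendsto b atTop (𝓝 b0)) :
    ∃ c : ℝ → ℝ × ℝ, Continuous c ∧ c 0 = b0 ∧ ∀ i, c (u i) = b i := by
  let e : OnePoint ℕ → ℝ := fun x => x.elim 0 u
  let f : OnePoint ℕ → ℝ × ℝ := fun x => x.elim b0 b
  have he : Continuous e := by
    rw [OnePoint.continuous_iff_from_nat]
    exact hu0
  have hf : Continuous f := by
    rw [OnePoint.continuous_iff_from_nat]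
    exact hb
  have hinj : Function.Injective e := by
    intro x y hxy
    induction x using OnePoint.rec with
    | infty =>
      induction y using OnePoint.rec with
      | infty => rfl
      | coe j =>
        have h1 : (0 : ℝ) = u j := hxy
        exact absurd h1 (hpos j).ne
    | coe i =>
      induction y using OnePoint.rec with
      | infty =>
        have h1 : u i = 0 := hxy
        exact absurd h1 (hpos i).ne'
      | coe j =>
        have h1 : u i = u j := hxy
        rw [hu.injective h1]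
  have hce : IsClosedEmbedding e := he.isClosedEmbedding hinj
  obtain ⟨g, hg⟩ := ContinuousMap.exists_extension' hce (⟨f, hf⟩ : C(OnePoint ℕ, ℝ × ℝ))
  refine ⟨g, g.continuous, ?_, fun i => ?_⟩
  · exact congrFun hg OnePoint.infty
  · exact congrFun hg (i : OnePoint ℕ)

/-- The topological part: a Hausdorff space which is locally `ℝ³`, with a continuous map `F` to
`ℝ³` and open second countable pieces `U γ` such that each countable set `A` accumulates at each
point `x` outside some `U γ` with `F x ∈ closure (F '' A)`, is hereditarily separable. -/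
theorem abs_hs {M ι : Type} [TopologicalSpace M] [T2Space M] (F : M → ℝ × ℝ × ℝ)
    (hF : Continuous F) (U : ι → Set M)
    (hch : ∀ a, ∃ φ : ℕ → (ℝ × ℝ × ℝ) → M, (∀ i, IsOpenEmbedding (φ i)) ∧
      ⋃ i, range (φ i) = U a)
    (star : ∀ A : Set M, A.Countable → ∃ a, ∀ x, x ∉ U a → F x ∈ closure (F '' A) →
      x ∈ closure A) (Y : Set M) : ∃ A ⊆ Y, A.Countable ∧ Y ⊆ closure A := by
  classical
  have hsep : ∀ s : Set (ℝ × ℝ × ℝ), ∃ t ⊆ s, t.Countable ∧ s ⊆ closure t := by
    intro s
    exact (TopologicalSpace.IsSeparable.of_separableSpace s).exists_countable_dense_subset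
  obtain ⟨t, ht, htc, htd⟩ := hsep (F '' Y)
  have hg : ∀ y : t, ∃ x ∈ Y, F x = y := fun y => ht y.2
  choose g hgY hgF using hg
  have htc' : Countable t := htc.to_subtype
  have hA1 : (range g).Countable := countable_range g
  have hA1F : F '' (range g) = t := by
    ext y
    constructor
    · rintro ⟨_, ⟨z, rfl⟩, rfl⟩
      rw [hgF]; exact z.2
    · intro hy
      exact ⟨g ⟨y, hy⟩, ⟨_, rfl⟩, hgF ⟨y, hy⟩⟩
  obtain ⟨a, ha⟩ := star (range g) hA1
  obtain ⟨φ, hφ, hφU⟩ := hch a
  have hD : ∀ i, ∃ D ⊆ φ i ⁻¹' Y, D.Countable ∧ φ i ⁻¹' Y ⊆ closure D := fun i => hsep _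
  choose D hDY hDc hDd using hD
  refine ⟨range g ∪ ⋃ i, φ i '' D i, ?_, ?_, ?_⟩
  · rintro x (⟨z, rfl⟩ | hx)
    · exact hgY z
    · rw [mem_iUnion] at hx
      obtain ⟨i, p, hp, rfl⟩ := hx
      exact hDY i hp
  · exact hA1.union (countable_iUnion fun i => (hDc i).image _)
  · intro x hx
    by_cases hxU : x ∈ U a
    · rw [← hφU, mem_iUnion] at hxU
      obtain ⟨i, p, rfl⟩ := hxU
      have h1 : p ∈ closure (D i) := hDd i hx
      have h2 : φ i p ∈ closure (φ i '' D i) :=
        image_closure_subset_closure_image (hφ i).continuous ⟨p, h1, rfl⟩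
      refine closure_mono ?_ h2
      intro z hz
      exact Or.inr (mem_iUnion.mpr ⟨i, hz⟩)
    · refine closure_mono subset_union_left (ha x hxU ?_)
      rw [hA1F]
      exact htd ⟨x, hx, rfl⟩

theorem lind_cov_aux {X : Type*} [TopologicalSpace X] [RegularSpace X] {S O : Set X}
    (hS : IsLindelof S) (hO : IsOpen O) (hSO : S ⊆ O) :
    ∃ T : Set (Set X), T.Countable ∧ (∀ V ∈ T, IsOpen V ∧ closure V ⊆ O) ∧ S ⊆ ⋃₀ T := by
  have h : ∀ x, x ∈ S → ∃ V, IsOpen V ∧ x ∈ V ∧ closure V ⊆ O := by
    intro x hx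
    obtain ⟨t, ht, htc, hts⟩ := exists_mem_nhds_isClosed_subset (hO.mem_nhds (hSO hx))
    exact ⟨interior t, isOpen_interior, mem_interior_iff_mem_nhds.2 ht,
      (closure_minimal interior_subset htc).trans hts⟩
  choose! V hV using h
  obtain ⟨t, htc, hts, hcov⟩ := hS.elim_nhds_subcover V
    (fun x hx => (hV x hx).1.mem_nhds (hV x hx).2.1)
  refine ⟨V '' t, htc.image V, ?_, ?_⟩
  · rintro _ ⟨x, hx, rfl⟩
    exact ⟨(hV x (hts x hx)).1, (hV x (hts x hx)).2.2⟩
  · intro x hx
    obtain ⟨y, hy, hxy⟩ := mem_iUnion₂.1 (hcov hx)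
    exact ⟨V y, mem_image_of_mem V hy, hxy⟩

/-- ... and hereditarily normal.  Proof idea: use `hasSeparatingCovers_iff_separatedNhds`. Given
`Disjoint (closure H) K`, `Disjoint H (closure K)` choose a countable `A ⊆ K` with
`F '' K ⊆ closure (F '' A)` (metric spaces are hereditarily separable), and `a` from `star`.
The part `H ∩ U a` is Lindelöf and is covered by countably many open sets with closure disjoint
from `K` (`M` is regular, being locally compact Hausdorff); for `x ∈ H \ U a` the point `F x` is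
not in `closure (F '' K)`, so it is in a rational ball whose closure misses `F '' K`. -/
theorem abs_t5 {M ι : Type} [TopologicalSpace M] [T2Space M] (F : M → ℝ × ℝ × ℝ)
    (hF : Continuous F) (U : ι → Set M)
    (hloc : ∀ x : M, ∃ φ : (ℝ × ℝ × ℝ) → M, IsOpenEmbedding φ ∧ x ∈ range φ)
    (hch : ∀ a, ∃ φ : ℕ → (ℝ × ℝ × ℝ) → M, (∀ i, IsOpenEmbedding (φ i)) ∧
      ⋃ i, range (φ i) = U a)
    (star : ∀ A : Set M, A.Countable → ∃ a, ∀ x, x ∉ U a → F x ∈ closure (F '' A) →
      x ∈ closure A) : T5Space M := by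
  haveI : WeaklyLocallyCompactSpace M := by
    refine ⟨fun x => ?_⟩
    obtain ⟨φ, hφ, p, rfl⟩ := hloc x
    refine ⟨φ '' Metric.closedBall p 1, (isCompact_closedBall p 1).image hφ.continuous, ?_⟩
    exact hφ.isOpenMap.image_mem_nhds (Metric.closedBall_mem_nhds p one_pos)
  have hreg : RegularSpace M := inferInstance
  have key : ∀ H K : Set M, Disjoint H (closure K) → HasSeparatingCover H K := by
    intro H K hHK
    -- a countable set A
    obtain ⟨t, htc, htd⟩ := TopologicalSpace.exists_countable_dense (F '' K)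
    have hch2 : ∀ y : F '' K, ∃ x ∈ K, F x = y := fun y => y.2
    choose g hgK hgF using hch2
    have hcl : F '' K ⊆ closure (F '' (g '' t)) := by
      intro y hy
      have h1 : (⟨y, hy⟩ : F '' K) ∈ closure t := htd ⟨y, hy⟩
      have h2 := image_closure_subset_closure_image continuous_subtype_val
        (mem_image_of_mem Subtype.val h1)
      have h3 : F '' (g '' t) = Subtype.val '' t := by
        rw [image_image]
        exact image_congr fun y _ => hgF y
      rw [h3]
      exact h2
    have hAK : g '' t ⊆ K := by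
      rintro _ ⟨y, -, rfl⟩
      exact hgK y
    obtain ⟨a, ha⟩ := star (g '' t) (htc.image g)
    -- first part
    have hL1 : IsLindelof (H ∩ U a) := by
      obtain ⟨φ, hφ, hU⟩ := hch a
      have h1 : H ∩ U a = ⋃ i, φ i '' (φ i ⁻¹' H) := by
        rw [← hU, inter_iUnion]
        refine iUnion_congr fun i => ?_
        rw [image_preimage_eq_inter_range]
      rw [h1]
      exact isLindelof_iUnion fun i =>
        (HereditarilyLindelofSpace.isLindelof _).image (hφ i).continuous
    have hO1 : IsOpen (closure K)ᶜ := isClosed_closure.isOpen_compl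
    obtain ⟨S1, hS1c, hS1, hS1cov⟩ := lind_cov_aux hL1 hO1 (fun x hx =>
      fun hxK => disjoint_left.1 hHK hx.1 hxK)
    -- second part
    have hO2 : IsOpen (closure (F '' K))ᶜ := isClosed_closure.isOpen_compl
    have hL2 : IsLindelof (F '' (H \ U a)) := HereditarilyLindelofSpace.isLindelof _
    obtain ⟨S2, hS2c, hS2, hS2cov⟩ := lind_cov_aux hL2 hO2 (by
      rintro _ ⟨x, ⟨hxH, hxU⟩, rfl⟩ hx
      have h1 : F x ∈ closure (F '' (g '' t)) := closure_minimal hcl isClosed_closure hx
      exact disjoint_left.1 hHK hxH (closure_mono hAK (ha x hxU h1)))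
    obtain ⟨u, hu⟩ := ((hS1c.union (hS2c.image (preimage F))).insert ∅).exists_eq_range
      (insert_nonempty _ _)
    refine ⟨u, ?_, ?_⟩
    · intro x hx
      by_cases hxU : x ∈ U a
      · obtain ⟨V, hV, hxV⟩ := hS1cov ⟨hx, hxU⟩
        have h1 : V ∈ range u := by rw [← hu]; exact Or.inr (Or.inl hV)
        obtain ⟨n, rfl⟩ := h1
        exact mem_iUnion.2 ⟨n, hxV⟩
      · obtain ⟨V, hV, hxV⟩ := hS2cov (mem_image_of_mem F ⟨hx, hxU⟩)
        have h1 : F ⁻¹' V ∈ range u := by
          rw [← hu]; exact Or.inr (Or.inr (mem_image_of_mem _ hV))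
        obtain ⟨n, hn⟩ := h1
        exact mem_iUnion.2 ⟨n, by rw [hn]; exact hxV⟩
    · intro n
      have h1 : u n ∈ insert ∅ (S1 ∪ (preimage F) '' S2) := by rw [hu]; exact mem_range_self n
      rcases h1 with h1 | h1 | ⟨V, hV, h1⟩
      · rw [h1]
        exact ⟨isOpen_empty, by simp⟩
      · obtain ⟨h2, h3⟩ := hS1 _ h1
        refine ⟨h2, disjoint_left.2 fun x hx hxK => ?_⟩
        exact h3 hx (subset_closure hxK)
      · obtain ⟨h2, h3⟩ := hS2 _ hV
        rw [← h1]
        refine ⟨h2.preimage hF, disjoint_left.2 fun x hx hxK => ?_⟩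
        have h4 : x ∈ F ⁻¹' closure V := hF.closure_preimage_subset V hx
        exact h3 h4 (subset_closure (mem_image_of_mem F hxK))
  refine { toT1Space := inferInstance, toCompletelyNormalSpace := ⟨fun s t h1 h2 => ?_⟩ }
  rw [← separatedNhds_iff_disjoint, ← hasSeparatingCovers_iff_separatedNhds]
  exact ⟨key s t h2, key t s h1.symm⟩

/-- the continuum hypothesis: some family of sets of natural numbers indexed by the countable
ordinals contains every set of natural numbers -/
def CH : Prop :=
  ∃ E : Om → ℕ → Prop, ∀ x : ℕ → Prop, ∃ a : Om, ∀ n : ℕ, x n ↔ E a n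

/-- distinct boundary points -/
theorem exists_z : ∃ z : Om → ℝ × ℝ, Function.Injective z := by
  
  have h : Cardinal.mk Om ≤ Cardinal.mk (ℝ × ℝ) := by
    have h1 : Cardinal.mk Om = Cardinal.aleph 1 := Cardinal.mk_ord_toType _
    have h2 : Cardinal.mk (ℝ × ℝ) = Cardinal.continuum := by
      rw [Cardinal.mk_prod, Cardinal.mk_real]
      simp
    rw [h1, h2]
    exact Cardinal.aleph_one_le_continuum
  obtain ⟨f⟩ := h
  exact ⟨f, f.injective⟩

/-- an enumeration of the countable sets -/
theorem exists_T (hCH : CH) : ∃ T : Om → Set X, ∀ A : Set X, A.Countable → A.Nonempty →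
    ∃ β, T β = A := by
  have hOm : Cardinal.mk Om = Cardinal.aleph 1 := Cardinal.mk_ord_toType _
  have h1 : Cardinal.continuum ≤ Cardinal.mk Om := by
    obtain ⟨E, hE⟩ := hCH
    have hs : Function.Surjective E := by
      intro x
      obtain ⟨a, ha⟩ := hE x
      exact ⟨a, funext fun n => propext (ha n).symm⟩
    have h2 := Cardinal.mk_le_of_surjective hs
    have h3 : Cardinal.mk (ℕ → Prop) = Cardinal.continuum := by
      have : Cardinal.mk (ℕ → Prop) = Cardinal.mk (Set ℕ) := rfl
      rw [this, Cardinal.mk_set, Cardinal.mk_nat, Cardinal.two_power_aleph0]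
    rw [h3] at h2
    exact h2
  have h2 : Cardinal.mk Om ≤ Cardinal.continuum := by
    rw [hOm]
    exact Cardinal.aleph_one_le_continuum
  have hR : Cardinal.mk ℝ = Cardinal.continuum := Cardinal.mk_real
  have hN : Cardinal.mk NNReal ≤ Cardinal.continuum := by
    rw [← hR]
    exact Cardinal.mk_le_of_injective NNReal.coe_injective
  have hX : Cardinal.mk X ≤ Cardinal.continuum := by
    have e1 : Cardinal.mk R3 = Cardinal.continuum := by
      simp only [Cardinal.mk_prod, Cardinal.lift_id, hR, Cardinal.continuum_mul_self]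
    have e2 : Cardinal.mk (Om × NNReal) ≤ Cardinal.continuum := by
      rw [Cardinal.mk_prod, Cardinal.lift_id, Cardinal.lift_id]
      calc Cardinal.mk Om * Cardinal.mk NNReal ≤ Cardinal.continuum * Cardinal.continuum :=
            mul_le_mul' h2 hN
        _ = Cardinal.continuum := Cardinal.continuum_mul_self
    rw [Cardinal.mk_sum, Cardinal.lift_id, Cardinal.lift_id, e1]
    calc Cardinal.continuum + Cardinal.mk (Om × NNReal) ≤
          Cardinal.continuum + Cardinal.continuum := add_le_add le_rfl e2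
      _ = Cardinal.continuum := Cardinal.continuum_add_self
  have hseq : Cardinal.mk (ℕ → X) ≤ Cardinal.mk Om := by
    refine le_trans ?_ h1
    rw [← Cardinal.power_def, Cardinal.mk_nat]
    calc Cardinal.mk X ^ Cardinal.aleph0 ≤ Cardinal.continuum ^ Cardinal.aleph0 :=
          Cardinal.power_le_power_right hX
      _ = Cardinal.continuum := Cardinal.continuum_power_aleph0
  obtain ⟨ι⟩ : Nonempty ((ℕ → X) ↪ Om) := Cardinal.le_def _ _ |>.mp hseq
  haveI : Nonempty (ℕ → X) := ⟨fun _ => Sum.inl (0, 0, 0)⟩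
  have hsurj := Function.invFun_surjective ι.injective
  refine ⟨fun β => Set.range (Function.invFun ι β), ?_⟩
  intro A hA hne
  obtain ⟨g, hg⟩ := hA.exists_eq_range hne
  obtain ⟨β, hβ⟩ := hsurj g
  refine ⟨β, ?_⟩
  simp only
  rw [hβ, hg]

end Pool.Agent.Helper102.RZ
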