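import Pool.Agent.Helper102.RZ.Defs

set_option autoImplicit false

open Set Filter Topology

namespace Pool.Agent.Helper102.RZ

open Pool.Agent.Helper732.HN

section base

variable {c : ℝ → ℝ × ℝ} (hc : Continuous c)

theorem I0_notMem (p : R3) : I0 c p ∉ Ray := pari_notMem (Real.exp_pos _)

theorem uu_I0 (p : R3) : uu (I0 c p) = Real.exp p.1 := uu_pari (Real.exp_pos _)

theorem E0_I0 (p : R3) : E0 c (I0 c p) = p := by
  have he := Real.exp_pos p.1
  unfold E0
  rw [uu_I0, Real.log_exp]
  refine Prod.ext rfl (Prod.ext ?_ ?_)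
  · show (c (Real.exp p.1)).1 + (2 * Real.exp p.1 *
      ((p.2.1 - (c (Real.exp p.1)).1) / Real.exp p.1)) / 2 = p.2.1
    field_simp
    ring
  · show (c (Real.exp p.1)).2 + (2 * Real.exp p.1 *
      ((p.2.2 - (c (Real.exp p.1)).2) / Real.exp p.1)) / 2 = p.2.2
    field_simp
    ring

theorem I0_E0 {w : R3} (hw : w ∉ Ray) : I0 c (E0 c w) = w := by
  have hu := uu_pos hw
  conv_rhs => rw [← pari_par hw]
  unfold I0 E0
  congr 1
  simp only [Real.exp_log hu]
  refine Prod.ext rfl (Prod.ext ?_ ?_)
  · show ((c (uu w)).1 + w.2.1 / 2 - (c (uu w)).1) / uu w = w.2.1 / (2 * uu w)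
    field_simp
    ring
  · show ((c (uu w)).2 + w.2.2 / 2 - (c (uu w)).2) / uu w = w.2.2 / (2 * uu w)
    field_simp
    ring

include hc in
theorem I0_continuous : Continuous (I0 c) := by
  unfold I0
  refine pari_continuous.comp ?_
  have h1 : Continuous fun p : R3 => Real.exp p.1 := Real.continuous_exp.comp continuous_fst
  have h2 : Continuous fun p : R3 => c (Real.exp p.1) := hc.comp h1
  refine h1.prodMk (Continuous.prodMk ?_ ?_)
  · exact Continuous.div ((by fun_prop : Continuous fun p : R3 => p.2.1).sub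
      (continuous_fst.comp h2)) h1 (fun p => (Real.exp_pos _).ne')
  · exact Continuous.div ((by fun_prop : Continuous fun p : R3 => p.2.2).sub
      (continuous_snd.comp h2)) h1 (fun p => (Real.exp_pos _).ne')

/-- the image of a point in the half space, off the ray -/
noncomputable def Fb (c : ℝ → ℝ × ℝ) (w : R3) : R3 :=
  (uu w, c (uu w) + (w.2.1 / 2, w.2.2 / 2))

include hc in
theorem Fb_continuous : Continuous (Fb c) := by
  unfold Fb
  refine uu_continuous.prodMk ((hc.comp uu_continuous).add ?_)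
  fun_prop

include hc in
theorem E0_continuousOn : ContinuousOn (E0 c) Rayᶜ := by
  unfold E0
  refine ContinuousOn.prodMk (uu_continuous.continuousOn.log fun w hw => (uu_pos hw).ne') ?_
  exact ((hc.comp uu_continuous).add (by fun_prop)).continuousOn

theorem F_E0 (z : Om → ℝ × ℝ) {w : R3} (hw : w ∉ Ray) : F z (Sum.inl (E0 c w)) = Fb c w := by
  show ((Real.exp (Real.log (uu w)), _) : R3) = _
  rw [Real.exp_log (uu_pos hw)]
  rfl

theorem Fb_ray {w : R3} (hw : w ∈ Ray) : Fb c w = (0, c 0) := by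
  have h1 : w.2.1 = 0 := by rw [hw.2]; rfl
  have h2 : w.2.2 = 0 := by rw [hw.2]; rfl
  unfold Fb
  rw [uu_ray hw, h1, h2]
  simp

end base

end Pool.Agent.Helper102.RZ
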