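import Pool.Agent.Helper732.HN.A
import Pool.Agent.Helper732.HN.B
import Pool.Agent.Helper732.HN.C
import Pool.Agent.Helper732.HN.O

/-!
# A hereditarily normal 3-manifold with a `G_δ`-diagonal: definitions
-/

set_option autoImplicit false

open Set Filter Topology

namespace Pool.Agent.Helper102.RZ

open Pool.Agent.Helper732.HN

/-- the point of the boundary plane of the half space under the ray `α` -/
def bp (z : Om → ℝ × ℝ) (α : Om) : R3 := (0, z α)

/-- the map of the manifold to the closed half space -/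
noncomputable def F (z : Om → ℝ × ℝ) (x : X) : R3 :=
  Sum.elim (fun q : R3 => ((Real.exp q.1, q.2) : R3)) (fun y => ((0, z y.1) : R3)) x

/-- each ray meets `V` in a set of diameter at most `1 / (n + 1)` -/
def Thin (n : ℕ) (V : Set X) : Prop :=
  ∀ (γ : Om) (r r' : NNReal), (Sum.inr (γ, r) : X) ∈ V → (Sum.inr (γ, r') : X) ∈ V →
    |(r : ℝ) - r'| ≤ 1 / ((n : ℝ) + 1)

/-- the conditions on the attaching map number `α` -/
structure Good (z : Om → ℝ × ℝ) (T : Om → Set X) (e : Om → R3 → X) (α : Om) : Prop where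
  att : Att (top e (Iio α)) α (e α)
  cF : Continuous (F z ∘ e α)
  thin : ∀ w ∈ Ray, ∀ n : ℕ, ∃ B : Set R3, IsOpen B ∧ w ∈ B ∧ Thin n (e α '' B)
  task : ∀ β < α, bp z α ∈ closure (F z '' (T β ∩ XX α)) → ∀ w ∈ Ray, ∀ B : Set R3, IsOpen B →
    w ∈ B → ∃ a ∈ T β, a ∈ e α '' B

/-- the coordinates of the half space off the ray -/
noncomputable def E0 (c : ℝ → ℝ × ℝ) (w : R3) : R3 :=
  (Real.log (uu w), c (uu w) + (w.2.1 / 2, w.2.2 / 2))

/-- the inverse of `E0` -/
noncomputable def I0 (c : ℝ → ℝ × ℝ) (p : R3) : R3 :=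
  pari (Real.exp p.1, (p.2.1 - (c (Real.exp p.1)).1) / Real.exp p.1,
    (p.2.2 - (c (Real.exp p.1)).2) / Real.exp p.1)

open Classical in
/-- the attaching map -/
noncomputable def gg (α : Om) (c : ℝ → ℝ × ℝ) (h : X → X) (w : R3) : X :=
  if w ∈ Ray then Sum.inr (α, w.1.toNNReal) else h (Sum.inl (E0 c w))

end Pool.Agent.Helper102.RZ
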