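import Pool.Agent.Helper102.RZ.Seq

set_option autoImplicit false

open Set Filter Topology

namespace Pool.Agent.Helper102.RZ

open Pool.Agent.Helper732.HN

/-- transfinite recursion with invariants (after helper732) -/
theorem exists_rec {Data : Type} [Inhabited Data] (Good : (Om → Data) → Om → Prop)
    (hcongr : ∀ D D' α, (∀ β ≤ α, D β = D' β) → Good D α → Good D' α)
    (hstep : ∀ α D, (∀ β < α, Good D β) → ∃ d, Good (Function.update D α d) α) :
    ∃ D : Om → Data, ∀ α, Good D α := by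
  classical
  let F : (α : Om) → ((β : Om) → β < α → Data) → Data := fun α r =>
    if h : ∃ d, Good (Function.update (fun β => if h : β < α then r β h else default) α d) α then
      Classical.choose h else default
  let D : Om → Data := (wellFounded_lt (α := Om)).fix F
  have hD : ∀ α, D α = F α (fun β _ => D β) := fun α => (wellFounded_lt (α := Om)).fix_eq F α
  refine ⟨D, fun α => ?_⟩
  induction α using (wellFounded_lt (α := Om)).induction with
  | _ α ih =>
    have hE : ∀ β < α, Good (fun β => if _h : β < α then D β else default) β := fun β hβ =>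
      hcongr D _ β (fun γ hγ => by simp [lt_of_le_of_lt hγ hβ]) (ih β hβ)
    have hex := hstep α _ hE
    have hDα : D α = Classical.choose hex := by
      rw [hD α]
      exact dif_pos hex
    have := Classical.choose_spec hex
    rw [← hDα] at this
    refine hcongr _ D α (fun β hβ => ?_) this
    rcases hβ.lt_or_eq with h | h
    · rw [Function.update_of_ne h.ne]; simp [h]
    · subst h; rw [Function.update_self]

instance om_nonempty : Nonempty Om := by
  have h : Cardinal.mk Om = Cardinal.aleph 1 := by simp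
  exact Cardinal.mk_ne_zero_iff.1 (by rw [h]; exact (Cardinal.aleph_pos 1).ne')

variable {z : Om → ℝ × ℝ} {T : Om → Set X}

theorem exists_e (hz : Function.Injective z) (T : Om → Set X) :
    ∃ e : Om → R3 → X, ∀ α, Good z T e α := by
  haveI : Inhabited (R3 → X) := ⟨fun _ => Sum.inl 0⟩
  refine exists_rec (Good z T) ?_ ?_
  · intro D D' α h hg
    have h1 : D α = D' α := h α le_rfl
    have h2 : top D (Iio α) = top D' (Iio α) := top_congr fun β hβ => h β (le_of_lt hβ)
    refine ⟨?_, ?_, ?_, ?_⟩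
    · rw [← h1, ← h2]; exact hg.att
    · rw [← h1]; exact hg.cF
    · rw [← h1]; exact hg.thin
    · rw [← h1]; exact hg.task
  · intro α D h
    obtain ⟨c, g, hc, hc0, H⟩ := exists_HP hz h
    exact ⟨_, gg_good hz h hc hc0 H⟩

section glob

variable {e : Om → R3 → X} (he : ∀ α, Good z T e α)

include he

theorem att_all : ∀ β ∈ (univ : Set Om), Att (top e (Iio β)) β (e β) := fun β _ => (he β).att

theorem g_t2 : @T2Space X (top e univ) := t2 (att_all he) isLowerSet_univ

theorem g_cF : @Continuous X R3 (top e univ) _ (F z) := F_continuous fun β _ => (he β).cF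

theorem g_chart (x : X) : ∃ φ : R3 → X, @IsOpenEmbedding R3 X _ (top e univ) φ ∧
    x ∈ range φ := by
  rcases x with q | ⟨β, r⟩
  · exact ⟨Sum.inl, openEmb_inl (att_all he) isLowerSet_univ, ⟨q, rfl⟩⟩
  · exact ⟨e β, openEmb_e (att_all he) isLowerSet_univ (mem_univ β),
      ⟨_, (glu_pt (he β).att r).1⟩⟩

theorem g_cover (α : Om) : ∃ φ : ℕ → R3 → X,
    (∀ i, @IsOpenEmbedding R3 X _ (top e univ) (φ i)) ∧ ⋃ i, range (φ i) = XX α := by
  have hinl := openEmb_inl (att_all he) isLowerSet_univ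
  have hsub : ∀ β < α, range (e β) ⊆ XX α := by
    rintro β hβ _ ⟨w, rfl⟩
    exact e_mem (he β).att hβ w
  have hmem : ∀ x ∈ XX α, (x ∈ range (Sum.inl : R3 → X)) ∨ ∃ β < α, x ∈ range (e β) := by
    rintro (x | ⟨β, a⟩) hx
    · exact Or.inl ⟨x, rfl⟩
    · exact Or.inr ⟨β, hx, ⟨_, (glu_pt (he β).att a).1⟩⟩
  rcases (Iio α).eq_empty_or_nonempty with h0 | hne
  · refine ⟨fun _ => Sum.inl, fun _ => hinl, ?_⟩
    apply Subset.antisymm
    · refine iUnion_subset fun i => ?_
      rintro _ ⟨w, rfl⟩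
      exact inl_mem_XX w α
    · intro x hx
      rcases hmem x hx with h | ⟨β, hβ, _⟩
      · exact mem_iUnion.2 ⟨0, h⟩
      · exfalso
        have : β ∈ Iio α := hβ
        rw [h0] at this
        exact this
  · obtain ⟨f, hf⟩ := (om_countable α).exists_eq_range hne
    refine ⟨fun i => Nat.casesOn i Sum.inl (fun j => e (f j)), ?_, ?_⟩
    · intro i
      cases i with
      | zero => exact hinl
      | succ j => exact openEmb_e (att_all he) isLowerSet_univ (mem_univ (f j))
    · apply Subset.antisymm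
      · refine iUnion_subset fun i => ?_
        cases i with
        | zero =>
          rintro _ ⟨w, rfl⟩
          exact inl_mem_XX w α
        | succ j =>
          apply hsub (f j)
          have : f j ∈ Iio α := by rw [hf]; exact ⟨j, rfl⟩
          exact this
      · intro x hx
        rcases hmem x hx with h | ⟨β, hβ, h⟩
        · exact mem_iUnion.2 ⟨0, h⟩
        · have : β ∈ Iio α := hβ
          rw [hf] at this
          obtain ⟨j, rfl⟩ := this
          exact mem_iUnion.2 ⟨j + 1, h⟩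

theorem g_star (hT : ∀ A : Set X, A.Countable → A.Nonempty → ∃ β, T β = A) (A : Set X)
    (hA : A.Countable) : ∃ a : Om, ∀ x, x ∉ XX a → F z x ∈ closure (F z '' A) →
      x ∈ @closure X (top e univ) A := by
  rcases A.eq_empty_or_nonempty with rfl | hne
  · obtain ⟨a, -⟩ := om_bound fun _ => (Classical.arbitrary Om : Om)
    refine ⟨a, fun x _ hx => ?_⟩
    simp at hx
  obtain ⟨β, hβ⟩ := hT A hA hne
  obtain ⟨f, hf⟩ := hA.exists_eq_range hne
  have h1 : ∀ n, ∃ γ, f n ∈ XX γ := by
    intro n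
    rcases f n with q | ⟨γ, r⟩
    · exact ⟨β, trivial⟩
    · obtain ⟨b, hb⟩ := om_gt γ
      exact ⟨b, hb⟩
  choose γ hγ using h1
  obtain ⟨a, ha⟩ := om_bound fun n => Nat.casesOn n β γ
  have haβ : β < a := ha 0
  have haA : A ⊆ XX a := by
    rw [hf]
    rintro _ ⟨n, rfl⟩
    exact XX_mono (ha (n + 1)).le (hγ n)
  refine ⟨a, fun x hx hcl => ?_⟩
  rcases x with q | ⟨α, r⟩
  · exact absurd (inl_mem_XX q a) hx
  · have haα : a ≤ α := not_lt.1 hx
    let _ := top e univ
    rw [mem_closure_iff]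
    intro V hV hxV
    have hp := glu_pt (he α).att r
    have h2 : IsOpen (e α ⁻¹' V) := hV.2 α (mem_univ α)
    have h3 : T β ∩ XX α = A := by
      rw [hβ]
      exact inter_eq_left.2 (haA.trans (XX_mono haα))
    have h4 : bp z α ∈ closure (F z '' (T β ∩ XX α)) := by
      rw [h3]; exact hcl
    obtain ⟨y, hyT, w, hw, hwy⟩ := (he α).task β (haβ.trans_le haα) h4 _ hp.2 _ h2 (by
      show e α ((r : ℝ), 0) ∈ V
      rw [hp.1]; exact hxV)
    refine ⟨y, ?_, ?_⟩
    · rw [← hwy]; exact hw
    · rw [← hβ]; exact hyT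

/-- small neighbourhoods -/
theorem g_thin (x : X) (n : ℕ) : ∃ V : Set X, IsOpen[top e univ] V ∧ x ∈ V ∧ Thin n V := by
  rcases x with q | ⟨β, r⟩
  · refine ⟨range Sum.inl, ?_, ⟨q, rfl⟩, ?_⟩
    · let _ := top e univ
      exact (openEmb_inl (att_all he) isLowerSet_univ).isOpen_range
    · rintro γ r r' ⟨q, hq⟩
      cases hq
  · have hp := glu_pt (he β).att r
    obtain ⟨B, hB, hrB, hthin⟩ := (he β).thin _ hp.2 n
    refine ⟨e β '' B, ?_, ⟨_, hrB, hp.1⟩, hthin⟩
    let _ := top e univ
    exact (openEmb_e (att_all he) isLowerSet_univ (mem_univ β)).isOpenMap B hB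

theorem g_diag (hz : Function.Injective z) :
    @IsGδ (X × X) (@instTopologicalSpaceProd X X (top e univ) (top e univ)) (diagonal X) := by
  let _ := top e univ
  have hc : Continuous (F z) := g_cF he
  let G : ℕ → Set (X × X) := fun n => ⋃₀ {W | ∃ V : Set X, IsOpen V ∧ Thin n V ∧
    (∀ x ∈ V, ∀ y ∈ V, dist (F z x) (F z y) ≤ 1 / ((n : ℝ) + 1)) ∧ W = V ×ˢ V}
  have hG : ∀ n, IsOpen (G n) := by
    intro n
    refine isOpen_sUnion ?_
    rintro W ⟨V, hV, -, -, rfl⟩
    exact hV.prod hV
  have hsub : ∀ n, diagonal X ⊆ G n := by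
    rintro n ⟨x, y⟩ hxy
    have hxy' : x = y := hxy
    subst hxy'
    obtain ⟨V, hV, hxV, hVt⟩ := g_thin he x n
    have h1 : IsOpen (F z ⁻¹' Metric.ball (F z x) (1 / (2 * ((n : ℝ) + 1)))) :=
      Metric.isOpen_ball.preimage hc
    have hx1 : x ∈ F z ⁻¹' Metric.ball (F z x) (1 / (2 * ((n : ℝ) + 1))) :=
      Metric.mem_ball_self (by positivity)
    refine ⟨_, ⟨V ∩ F z ⁻¹' Metric.ball (F z x) (1 / (2 * ((n : ℝ) + 1))), hV.inter h1,
      fun γ r r' h2 h3 => hVt γ r r' h2.1 h3.1, ?_, rfl⟩, ⟨hxV, hx1⟩, ⟨hxV, hx1⟩⟩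
    rintro y ⟨-, hy⟩ y' ⟨-, hy'⟩
    have h2 : dist (F z y) (F z x) < 1 / (2 * ((n : ℝ) + 1)) := hy
    have h3 : dist (F z y') (F z x) < 1 / (2 * ((n : ℝ) + 1)) := hy'
    have h9 : (1 : ℝ) / ((n : ℝ) + 1) = 1 / (2 * ((n : ℝ) + 1)) + 1 / (2 * ((n : ℝ) + 1)) := by
      field_simp; norm_num
    rw [h9]
    exact (dist_triangle_right _ _ (F z x)).trans (by linarith)
  have hlim : ∀ a : ℝ, 0 ≤ a → (∀ n : ℕ, a ≤ 1 / ((n : ℝ) + 1)) → a = 0 := by
    intro a ha h
    have := ge_of_tendsto' (tendsto_one_div_add_atTop_nhds_zero_nat (𝕜 := ℝ)) h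
    linarith
  have heq : diagonal X = ⋂ n, G n := by
    apply Subset.antisymm
    · exact subset_iInter hsub
    · rintro ⟨x, y⟩ hxy
      rw [mem_iInter] at hxy
      have hF : F z x = F z y := by
        refine dist_eq_zero.1 (hlim _ dist_nonneg fun n => ?_)
        obtain ⟨_, ⟨V, -, -, h1, rfl⟩, h2, h3⟩ := hxy n
        exact h1 x h2 y h3
      have hthin : ∀ n, ∃ V : Set X, Thin n V ∧ x ∈ V ∧ y ∈ V := by
        intro n
        obtain ⟨_, ⟨V, -, h1, -, rfl⟩, h2, h3⟩ := hxy n
        exact ⟨V, h1, h2, h3⟩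
      show x = y
      rcases x with q | ⟨β, r⟩ <;> rcases y with q' | ⟨β', r'⟩
      · have hF' : ((Real.exp q.1, q.2) : R3) = (Real.exp q'.1, q'.2) := hF
        have h1 : Real.exp q.1 = Real.exp q'.1 := (Prod.ext_iff.1 hF').1
        have h2 : q.2 = q'.2 := (Prod.ext_iff.1 hF').2
        rw [Prod.ext (Real.exp_injective h1) h2]
      · exact absurd (congrArg Prod.fst hF : Real.exp q.1 = 0) (Real.exp_pos _).ne'
      · exact absurd (congrArg Prod.fst hF : (0 : ℝ) = Real.exp q'.1) (Real.exp_pos _).ne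
      · have h1 : z β = z β' := congrArg Prod.snd hF
        have h2 : β = β' := hz h1
        subst h2
        have h3 : |(r : ℝ) - r'| = 0 := by
          refine hlim _ (abs_nonneg _) fun n => ?_
          obtain ⟨V, h4, h5, h6⟩ := hthin n
          exact h4 β r r' h5 h6
        have h4 : (r : ℝ) = r' := by
          have := abs_eq_zero.1 h3
          linarith
        rw [NNReal.coe_injective h4]
  rw [heq]
  exact IsGδ.iInter_of_isOpen hG

theorem g_dense : @Dense X (top e univ) (range (Sum.inl : R3 → X)) := by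
  let _ := top e univ
  intro x
  rw [mem_closure_iff]
  intro V hV hxV
  obtain ⟨q, hq⟩ := dense_inl (att_all he) isLowerSet_univ hV hxV (fun β r _ => mem_univ β)
  exact ⟨_, hq, ⟨q, rfl⟩⟩

theorem g_connected : @ConnectedSpace X (top e univ) := by
  let _ := top e univ
  have h1 : IsConnected (range (Sum.inl : R3 → X)) :=
    isConnected_range (openEmb_inl (att_all he) isLowerSet_univ).continuous
  have h2 := h1.closure
  rw [(g_dense he).closure_eq] at h2
  exact connectedSpace_iff_univ.2 h2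

theorem g_nonmetr (hhs : ∀ Y : Set X, ∃ A ⊆ Y, A.Countable ∧ Y ⊆ @closure X (top e univ) A) :
    ¬ @TopologicalSpace.MetrizableSpace X (top e univ) := by
  let _ := top e univ
  intro hm
  have hsep : TopologicalSpace.SeparableSpace X := by
    obtain ⟨A, -, hA, hd⟩ := hhs univ
    exact ⟨A, hA, fun x => hd (mem_univ x)⟩
  letI := TopologicalSpace.metrizableSpaceMetric X
  haveI : SecondCountableTopology X := UniformSpace.secondCountable_of_separable X
  have hopen : ∀ a : Om, IsOpen (XX a) := fun a => isOpen_XX (att_all he) isLowerSet_univ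
  have hcov : (⋃ a : Om, XX a) = univ := by
    refine eq_univ_of_forall fun x => ?_
    rcases x with q | ⟨γ, r⟩
    · exact mem_iUnion.2 ⟨Classical.arbitrary Om, trivial⟩
    · obtain ⟨b, hb⟩ := om_gt γ
      exact mem_iUnion.2 ⟨b, hb⟩
  obtain ⟨s, hs, hsU⟩ := TopologicalSpace.isOpen_iUnion_countable (fun a : Om => XX a) hopen
  rcases s.eq_empty_or_nonempty with h0 | hne
  · rw [h0] at hsU
    have : (Sum.inl 0 : X) ∈ ⋃ a : Om, XX a := by rw [hcov]; trivial
    rw [← hsU] at this
    simp at this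
  · obtain ⟨f, hf⟩ := hs.exists_eq_range hne
    obtain ⟨b, hb⟩ := om_bound f
    have : (Sum.inr (b, 0) : X) ∈ ⋃ a : Om, XX a := by rw [hcov]; trivial
    rw [← hsU] at this
    simp only [mem_iUnion] at this
    obtain ⟨a, ha, hba⟩ := this
    rw [hf] at ha
    obtain ⟨n, rfl⟩ := ha
    exact lt_asymm (hb n) (show b < f n from hba)

end glob

/-- the homeomorphism of `R3` with the Euclidean space -/
theorem exists_homeo : Nonempty (R3 ≃ₜ EuclideanSpace ℝ (Fin 3)) := by
  have h : Module.finrank ℝ R3 = Module.finrank ℝ (EuclideanSpace ℝ (Fin 3)) := by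
    simp [R3]
  exact ⟨(ContinuousLinearEquiv.ofFinrankEq h).toHomeomorph⟩

theorem main (hCH : CH) : ∃ (M : Type) (_ : TopologicalSpace M)
    (_ : ChartedSpace (EuclideanSpace ℝ (Fin 3)) M), T2Space M ∧ ConnectedSpace M ∧
    (∀ Y : Set M, NormalSpace Y) ∧ (∀ Y : Set M, TopologicalSpace.SeparableSpace Y) ∧
    IsGδ (diagonal M) ∧ ¬ TopologicalSpace.MetrizableSpace M := by
  obtain ⟨z, hz⟩ := exists_z
  obtain ⟨T, hT⟩ := exists_T hCH
  obtain ⟨e, he⟩ := exists_e hz T
  letI t := top e univ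
  haveI h2 : T2Space X := g_t2 he
  have hhs := abs_hs (F z) (g_cF he) XX (g_cover he) (g_star he hT)
  have ht5 : T5Space X := abs_t5 (F z) (g_cF he) XX (g_chart he) (g_cover he) (g_star he hT)
  obtain ⟨ψ⟩ := exists_homeo
  choose φ hφ hxφ using g_chart he
  let ch : X → OpenPartialHomeomorph X (EuclideanSpace ℝ (Fin 3)) := fun x =>
    ((hφ x).toOpenPartialHomeomorph (φ x)).symm.trans ψ.toOpenPartialHomeomorph
  have hch : ∀ x, x ∈ (ch x).source := by
    intro x
    simp only [ch, OpenPartialHomeomorph.trans_source, OpenPartialHomeomorph.symm_source,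
      mem_inter_iff, mem_preimage]
    refine ⟨?_, ?_⟩
    · simpa using hxφ x
    · simp
  refine ⟨X, t, ⟨range ch, ch, hch, fun x => ⟨x, rfl⟩⟩, h2, g_connected he, ?_, ?_,
    g_diag he hz, g_nonmetr he hhs⟩
  · intro Y
    infer_instance
  · intro Y
    obtain ⟨A, hAY, hA, hd⟩ := hhs Y
    refine ⟨(↑) ⁻¹' A, hA.preimage Subtype.val_injective, fun y => ?_⟩
    rw [closure_subtype]
    have : ((↑) '' ((↑) ⁻¹' A : Set Y) : Set X) = A := by
      rw [Subtype.image_preimage_coe]
      exact inter_eq_right.2 hAY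
    rw [this]
    exact hd y.2

end Pool.Agent.Helper102.RZ
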