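import Pool.Agent.Helper102.RZ.Pick

set_option autoImplicit false

open Set Filter Topology

namespace Pool.Agent.Helper102.RZ

open Pool.Agent.Helper732.HN

/-- properties of the homeomorphism used in the attaching map -/
structure HP (z : Om → ℝ × ℝ) (T : Om → Set X) (t : TopologicalSpace X) (α : Om)
    (c : ℝ → ℝ × ℝ) (h : X ≃ X) : Prop where
  c1 : @ContinuousOn X X t t h {x | 0 < dist (F z x) (bp z α)}
  c2 : @ContinuousOn X X t t h.symm {x | 0 < dist (F z x) (bp z α)}
  hX : ∀ x ∈ XX α, h x ∈ XX α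
  small : ∀ ε > 0, ∃ η > 0, ∀ x, dist (F z x) (bp z α) < η → dist (F z (h x)) (bp z α) < ε
  pos : ∀ x, 0 < dist (F z x) (bp z α) → 0 < dist (F z (h x)) (bp z α)
  thin : ∀ n : ℕ, ∃ η > 0, Thin n {y | ∃ q : R3, dist (F z (Sum.inl q)) (bp z α) < η ∧
    y = h (Sum.inl q)}
  task : ∀ β < α, bp z α ∈ closure (F z '' (T β ∩ XX α)) → ∀ w ∈ Ray, ∀ B : Set R3, IsOpen B →
    w ∈ B → ∃ q : R3, I0 c q ∈ B ∧ h (Sum.inl q) ∈ T β

variable {z : Om → ℝ × ℝ} {T : Om → Set X} {e : Om → R3 → X} {α : Om} {c : ℝ → ℝ × ℝ}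

theorem gg_ray {h : X → X} {w : R3} (hw : w ∈ Ray) :
    gg α c h w = Sum.inr (α, w.1.toNNReal) := by
  unfold gg; rw [if_pos hw]

theorem gg_off {h : X → X} {w : R3} (hw : w ∉ Ray) : gg α c h w = h (Sum.inl (E0 c w)) := by
  unfold gg; rw [if_neg hw]

theorem inl_pos (q : R3) : 0 < dist (F z (Sum.inl q)) (bp z α) :=
  dist_pos.2 fun h => (Real.exp_pos q.1).ne' (congrArg Prod.fst h)

theorem gg_good (hz : Function.Injective z) (hg : ∀ β < α, Good z T e β) (hc : Continuous c)
    (hc0 : c 0 = z α) {h : X ≃ X} (H : HP z T (top e (Iio α)) α c h) :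
    Good z T (Function.update e α (gg α c h)) α := by
  have ha : ∀ β ∈ Iio α, Att (top e (Iio β)) β (e β) := fun β hβ => (hg β hβ).att
  have htop : top (Function.update e α (gg α c h)) (Iio α) = top e (Iio α) :=
    top_congr fun β hβ => by rw [Function.update_of_ne (ne_of_lt hβ)]
  have hup : Function.update e α (gg α c h) α = gg α c h := Function.update_self ..
  have hFo : ∀ {W : Set R3}, IsOpen W → IsOpen[top e (Iio α)] (F z ⁻¹' W) := fun hW =>
    F_open (fun β hβ => (hg β hβ).cF) hW
  have hOo : IsOpen[top e (Iio α)] {x | 0 < dist (F z x) (bp z α)} :=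
    hFo (isOpen_lt continuous_const (continuous_id.dist continuous_const))
  have hinl := openEmb_inl ha (isLowerSet_Iio α)
  have hRo : IsOpen (Rayᶜ : Set R3) := isClosed_Ray.isOpen_compl
  have hD : ∀ {w : R3}, w ∉ Ray → dist (F z (Sum.inl (E0 c w))) (bp z α) =
      dist (Fb c w) (bp z α) := fun hw => by rw [F_E0 z hw]
  have hFbray : ∀ {w : R3}, w ∈ Ray → Fb c w = bp z α := fun hw => by
    rw [Fb_ray hw, hc0]; rfl
  have hFgray : ∀ {w : R3}, w ∈ Ray → F z (gg α c h w) = bp z α := fun hw => by
    rw [gg_ray hw]; rfl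
  -- continuity of `F ∘ g`
  have hcF : Continuous (F z ∘ gg α c h) := by
    rw [continuous_iff_continuousAt]
    intro w
    by_cases hw : w ∈ Ray
    · rw [Metric.continuousAt_iff']
      intro ε hε
      obtain ⟨η, hη, hs⟩ := H.small ε hε
      have h1 : ∀ᶠ w' in 𝓝 w, dist (Fb c w') (bp z α) < η := by
        have := (Metric.continuousAt_iff'.1 ((Fb_continuous hc).continuousAt (x := w))) η hη
        rwa [hFbray hw] at this
      filter_upwards [h1] with w' hw'
      show dist (F z (gg α c h w')) (F z (gg α c h w)) < ε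
      rw [hFgray hw]
      by_cases hr : w' ∈ Ray
      · rw [hFgray hr, dist_self]; exact hε
      · rw [gg_off hr]
        apply hs
        rw [hD hr]; exact hw'
    · have h1 : ContinuousOn (F z ∘ gg α c h) Rayᶜ := by
        let _ := top e (Iio α)
        have h2 : ContinuousOn (fun w => h (Sum.inl (E0 c w))) Rayᶜ :=
          H.c1.comp (hinl.continuous.comp_continuousOn (E0_continuousOn hc))
            (fun w _ => inl_pos _)
        have h3 : Continuous (F z) := F_continuous fun β hβ => (hg β hβ).cF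
        refine (h3.comp_continuousOn h2).congr fun w hw => ?_
        show F z (gg α c h w) = F z (h (Sum.inl (E0 c w)))
        rw [gg_off hw]
      exact h1.continuousAt (hRo.mem_nhds hw)
  refine ⟨?_, ?_, ?_, ?_⟩
  · rw [htop, hup]
    have hoff : ∀ w ∉ Ray, gg α c h w ∈ XX α := fun w hw => by
      rw [gg_off hw]; exact H.hX _ (inl_mem_XX _ _)
    refine ⟨?_, ?_, hoff, ?_, ?_, ?_⟩
    · intro a b hab
      by_cases ha' : a ∈ Ray <;> by_cases hb' : b ∈ Ray
      · rw [gg_ray ha', gg_ray hb'] at hab
        have h1 := Sum.inr_injective hab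
        have h2 : a.1.toNNReal = b.1.toNNReal := congrArg Prod.snd h1
        have h3 : a.1 = b.1 := (Real.toNNReal_eq_toNNReal_iff ha'.1 hb'.1).1 h2
        exact Prod.ext h3 (ha'.2.trans hb'.2.symm)
      · exfalso
        have h1 := hoff b hb'
        rw [← hab, gg_ray ha'] at h1
        exact lt_irrefl α (show α < α from h1)
      · exfalso
        have h1 := hoff a ha'
        rw [hab, gg_ray hb'] at h1
        exact lt_irrefl α (show α < α from h1)
      · rw [gg_off ha', gg_off hb'] at hab
        have h1 := Sum.inl_injective (h.injective hab)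
        rw [← I0_E0 (c := c) ha', h1, I0_E0 hb']
    · intro a ha'
      exact gg_ray ⟨ha', rfl⟩
    · intro V hV
      let _ := top e (Iio α)
      have h1 : IsOpen ({x | 0 < dist (F z x) (bp z α)} ∩ h ⁻¹' V) :=
        H.c1.isOpen_inter_preimage hOo hV
      have h2 := (hinl.continuous.comp_continuousOn (E0_continuousOn hc)).isOpen_inter_preimage
        hRo h1
      convert h2 using 1
      ext w
      constructor
      · rintro ⟨hw, hw'⟩
        refine ⟨hw', inl_pos _, ?_⟩
        have : gg α c h w ∈ V := hw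
        rwa [gg_off hw'] at this
      · rintro ⟨hw', -, hw⟩
        refine ⟨?_, hw'⟩
        show gg α c h w ∈ V
        rw [gg_off hw']; exact hw
    · intro U hU hUo
      have h0 : IsOpen (I0 c ⁻¹' U) := hUo.preimage (I0_continuous hc)
      let _ := top e (Iio α)
      have h1 : IsOpen ((Sum.inl : R3 → X) '' (I0 c ⁻¹' U)) := hinl.isOpenMap _ h0
      have h2 : IsOpen ({x | 0 < dist (F z x) (bp z α)} ∩
          h.symm ⁻¹' ((Sum.inl : R3 → X) '' (I0 c ⁻¹' U))) := H.c2.isOpen_inter_preimage hOo h1
      convert h2 using 1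
      ext y
      constructor
      · rintro ⟨w, hw, rfl⟩
        have hr : w ∉ Ray := hU hw
        rw [gg_off hr]
        refine ⟨H.pos _ (inl_pos _), ?_⟩
        show h.symm (h (Sum.inl (E0 c w))) ∈ (Sum.inl : R3 → X) '' (I0 c ⁻¹' U)
        rw [h.symm_apply_apply]
        refine ⟨E0 c w, ?_, rfl⟩
        show I0 c (E0 c w) ∈ U
        rw [I0_E0 hr]; exact hw
      · rintro ⟨-, q, hq, hq'⟩
        refine ⟨I0 c q, hq, ?_⟩
        rw [gg_off (I0_notMem q), E0_I0, hq', h.apply_symm_apply]
    · intro x hx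
      have hd : 0 < dist (F z x) (bp z α) := dist_pos.2 (F_ne hz hx)
      refine ⟨F z ⁻¹' {p | dist (F z x) (bp z α) / 2 < dist p (bp z α)},
        hFo (isOpen_lt continuous_const (continuous_id.dist continuous_const)), ?_, ?_⟩
      · show dist (F z x) (bp z α) / 2 < dist (F z x) (bp z α)
        linarith
      · intro w hw
        refine ⟨(F z ∘ gg α c h) ⁻¹' {p | dist p (bp z α) < dist (F z x) (bp z α) / 2},
          (isOpen_lt (continuous_id.dist continuous_const) continuous_const).preimage hcF, ?_, ?_⟩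
        · show dist (F z (gg α c h w)) (bp z α) < _
          rw [hFgray hw, dist_self]; linarith
        · intro w' hw' hV
          have h1 : dist (F z (gg α c h w')) (bp z α) < dist (F z x) (bp z α) / 2 := hw'
          have h2 : dist (F z x) (bp z α) / 2 < dist (F z (gg α c h w')) (bp z α) := hV
          exact lt_asymm h1 h2
  · rw [hup]; exact hcF
  · rw [hup]
    intro w hw n
    obtain ⟨η, hη, ht⟩ := H.thin n
    refine ⟨{w' | dist (Fb c w') (bp z α) < η} ∩ Metric.ball w (1 / (2 * ((n : ℝ) + 1))), ?_, ?_, ?_⟩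
    · exact (isOpen_lt ((Fb_continuous hc).dist continuous_const) continuous_const).inter
        Metric.isOpen_ball
    · refine ⟨?_, Metric.mem_ball_self (by positivity)⟩
      show dist (Fb c w) (bp z α) < η
      rw [hFbray hw, dist_self]; exact hη
    · rintro γ r r' ⟨w1, ⟨hw1, hb1⟩, h1⟩ ⟨w2, ⟨hw2, hb2⟩, h2⟩
      by_cases hr1 : w1 ∈ Ray
      · rw [gg_ray hr1] at h1
        have h3 : α = γ := congrArg Prod.fst (Sum.inr_injective h1)
        have h4 : w1.1.toNNReal = r := congrArg Prod.snd (Sum.inr_injective h1)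
        subst h3
        by_cases hr2 : w2 ∈ Ray
        · rw [gg_ray hr2] at h2
          have h5 : w2.1.toNNReal = r' := congrArg Prod.snd (Sum.inr_injective h2)
          rw [← h4, ← h5, Real.coe_toNNReal _ hr1.1, Real.coe_toNNReal _ hr2.1]
          have h6 : |w1.1 - w.1| < 1 / (2 * ((n : ℝ) + 1)) := by
            have h7 : dist w1.1 w.1 ≤ dist w1 w := by rw [Prod.dist_eq]; exact le_max_left _ _
            rw [← Real.dist_eq]; exact h7.trans_lt hb1
          have h7 : |w2.1 - w.1| < 1 / (2 * ((n : ℝ) + 1)) := by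
            have h8 : dist w2.1 w.1 ≤ dist w2 w := by rw [Prod.dist_eq]; exact le_max_left _ _
            rw [← Real.dist_eq]; exact h8.trans_lt hb2
          have h9 : (1 : ℝ) / ((n : ℝ) + 1) = 1 / (2 * ((n : ℝ) + 1)) + 1 / (2 * ((n : ℝ) + 1)) := by
            field_simp; norm_num
          rw [h9]
          have h10 : w1.1 - w2.1 = (w1.1 - w.1) - (w2.1 - w.1) := by ring
          rw [h10]
          exact (abs_sub _ _).trans (by linarith)
        · exfalso
          have h5 : gg α c h w2 ∈ XX α := by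
            rw [gg_off hr2]; exact H.hX _ (inl_mem_XX _ _)
          rw [h2] at h5
          exact lt_irrefl α (show α < α from h5)
      · by_cases hr2 : w2 ∈ Ray
        · exfalso
          rw [gg_ray hr2] at h2
          have h3 : α = γ := congrArg Prod.fst (Sum.inr_injective h2)
          subst h3
          have h5 : gg α c h w1 ∈ XX α := by
            rw [gg_off hr1]; exact H.hX _ (inl_mem_XX _ _)
          rw [h1] at h5
          exact lt_irrefl α (show α < α from h5)
        · rw [gg_off hr1] at h1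
          rw [gg_off hr2] at h2
          refine ht γ r r' ⟨E0 c w1, ?_, h1.symm⟩ ⟨E0 c w2, ?_, h2.symm⟩
          · rw [hD hr1]; exact hw1
          · rw [hD hr2]; exact hw2
  · rw [hup]
    intro β hβ hcl w hw B hB hwB
    obtain ⟨q, hq1, hq2⟩ := H.task β hβ hcl w hw B hB hwB
    refine ⟨_, hq2, I0 c q, hq1, ?_⟩
    rw [gg_off (I0_notMem q), E0_I0]

end Pool.Agent.Helper102.RZ
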