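import Pool.Agent.Helper102.RZ.Base

set_option autoImplicit false

open Set Filter Topology

namespace Pool.Agent.Helper102.RZ

open Pool.Agent.Helper732.HN

variable {z : Om → ℝ × ℝ} {T : Om → Set X} {e : Om → R3 → X}

theorem F_inl_continuous : Continuous fun q : R3 => F z (Sum.inl q) := by
  show Continuous fun q : R3 => ((Real.exp q.1, q.2) : R3)
  exact (Real.continuous_exp.comp continuous_fst).prodMk continuous_snd

/-- `F` is continuous for the topology given by charts along which it is continuous -/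
theorem F_open {s : Set Om} (h : ∀ β ∈ s, Continuous (F z ∘ e β)) {W : Set R3} (hW : IsOpen W) :
    IsOpen[top e s] (F z ⁻¹' W) :=
  ⟨hW.preimage F_inl_continuous, fun β hβ => hW.preimage (h β hβ)⟩

theorem F_continuous {s : Set Om} (h : ∀ β ∈ s, Continuous (F z ∘ e β)) :
    @Continuous X R3 (top e s) _ (F z) :=
  @Continuous.mk X R3 (top e s) _ _ fun _ hW => F_open h hW

theorem F_ne (hz : Function.Injective z) {α : Om} {x : X} (hx : x ∈ XX α) :
    F z x ≠ bp z α := by
  rcases x with q | ⟨β, r⟩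
  · intro h
    have h1 : Real.exp q.1 = 0 := congrArg Prod.fst h
    exact (Real.exp_pos _).ne' h1
  · intro h
    have h1 : z β = z α := congrArg Prod.snd h
    have h2 : β < α := hx
    exact h2.ne (hz h1)

/-- in a nonempty open set there is a point of the half space -/
theorem dense_inl {s : Set Om} (h : ∀ β ∈ s, Att (top e (Iio β)) β (e β)) (hs : IsLowerSet s)
    {V : Set X} (hV : IsOpen[top e s] V) {x : X} (hx : x ∈ V)
    (hxs : ∀ β r, x = Sum.inr (β, r) → β ∈ s) : ∃ q : R3, (Sum.inl q : X) ∈ V := by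
  have key : ∀ β : Om, β ∈ s → ∀ r : NNReal, (Sum.inr (β, r) : X) ∈ V →
      ∃ q : R3, (Sum.inl q : X) ∈ V := by
    intro β
    induction β using WellFoundedLT.induction with
    | ind β ih =>
      intro hβ r hr
      have ho : IsOpen (e β ⁻¹' V) := hV.2 β hβ
      have hp := (glu_pt (h β hβ) r).1
      have hmem : (((r : ℝ), (0, 0)) : R3) ∈ e β ⁻¹' V := by
        show e β ((r : ℝ), (0, 0)) ∈ V
        have : (((r : ℝ), (0, 0)) : R3) = ((r : ℝ), 0) := rfl
        rw [this, hp]; exact hr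
      -- a point of the open set off the ray
      have hcont : Continuous fun s : ℝ => (((r : ℝ), (s, 0)) : R3) := by fun_prop
      have h0 : IsOpen ((fun s : ℝ => (((r : ℝ), (s, 0)) : R3)) ⁻¹' (e β ⁻¹' V)) :=
        ho.preimage hcont
      obtain ⟨ε, hε, hball⟩ := Metric.isOpen_iff.1 h0 0 hmem
      have h1 : (ε / 2 : ℝ) ∈ Metric.ball (0 : ℝ) ε := by
        rw [Metric.mem_ball, Real.dist_eq, sub_zero, abs_of_pos (by positivity)]
        linarith
      have h2 := hball h1
      have h3 : (((r : ℝ), (ε / 2, 0)) : R3) ∉ Ray := by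
        rintro ⟨-, h4⟩
        have : ε / 2 = 0 := congrArg Prod.fst h4
        linarith
      have h5 : e β ((r : ℝ), (ε / 2, 0)) ∈ V := h2
      have h6 := (h β hβ).off _ h3
      rcases hx' : e β ((r : ℝ), (ε / 2, 0)) with q | ⟨γ, r'⟩
      · rw [hx'] at h5
        exact ⟨q, h5⟩
      · rw [hx'] at h5 h6
        have h7 : γ < β := h6
        exact ih γ h7 (hs h7.le hβ) r' h5
  rcases x with q | ⟨β, r⟩
  · exact ⟨q, hx⟩
  · exact key β (hxs β r rfl) r hx

/-- small neighbourhoods -/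
theorem exists_thin {α : Om} (h : ∀ β < α, Good z T e β) {x : X} (hx : x ∈ XX α) (n : ℕ) :
    ∃ V : Set X, IsOpen[top e (Iio α)] V ∧ x ∈ V ∧ Thin n V := by
  have ha : ∀ β ∈ Iio α, Att (top e (Iio β)) β (e β) := fun β hβ => (h β hβ).att
  rcases x with q | ⟨β, r⟩
  · refine ⟨range Sum.inl, ?_, ⟨q, rfl⟩, ?_⟩
    · let _ := top e (Iio α)
      exact (openEmb_inl ha (isLowerSet_Iio α)).isOpen_range
    · rintro γ r r' ⟨q, hq⟩
      cases hq
  · have hβ : β < α := hx
    have hp := glu_pt (h β hβ).att r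
    obtain ⟨B, hB, hrB, hthin⟩ := (h β hβ).thin _ hp.2 n
    refine ⟨e β '' B, ?_, ⟨_, hrB, hp.1⟩, hthin⟩
    let _ := top e (Iio α)
    exact (openEmb_e ha (isLowerSet_Iio α) hβ).isOpenMap B hB

/-- charts at stage `α` -/
theorem exists_chart {α : Om} (h : ∀ β < α, Good z T e β) {x : X} (hx : x ∈ XX α) :
    ∃ φ : R3 → X, @IsOpenEmbedding R3 X _ (top e (Iio α)) φ ∧ x ∈ range φ := by
  have ha : ∀ β ∈ Iio α, Att (top e (Iio β)) β (e β) := fun β hβ => (h β hβ).att
  rcases x with q | ⟨β, r⟩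
  · exact ⟨Sum.inl, openEmb_inl ha (isLowerSet_Iio α), ⟨q, rfl⟩⟩
  · have hβ : β < α := hx
    have hp := glu_pt (h β hβ).att r
    exact ⟨e β, openEmb_e ha (isLowerSet_Iio α) hβ, ⟨_, hp.1⟩⟩

end Pool.Agent.Helper102.RZ
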