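import Pool.Agent.Helper102.RZ.Local

set_option autoImplicit false

open Set Filter Topology

namespace Pool.Agent.Helper102.RZ

open Pool.Agent.Helper732.HN

/-- one shell: a point `x` of `A`, a small neighbourhood `N` and a homeomorphism with support in
`N` moving a point of the half space to `x` -/
structure Shell (z : Om → ℝ × ℝ) (α : Om) (t : TopologicalSpace X) (A : Set X) (n : ℕ)
    (δ δ' : ℝ) (q : R3) (N C : Set X) (k : @Homeomorph X X t t) : Prop where
  pos : 0 < δ'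
  lt : δ' < δ
  hgt : δ' < Real.exp q.1
  oN : IsOpen[t] N
  cC : IsClosed[t] C
  sub : C ⊆ N
  off : ∀ x ∉ C, k x = x
  thin : Thin n N
  NX : N ⊆ XX α
  lo : ∀ y ∈ N, δ' < dist (F z y) (bp z α)
  hi : ∀ y ∈ N, dist (F z y) (bp z α) < δ
  qN : (Sum.inl q : X) ∈ N
  img : k (Sum.inl q) ∈ A

variable {z : Om → ℝ × ℝ} {T : Om → Set X} {e : Om → R3 → X}

theorem pick (hz : Function.Injective z) {α : Om} (h : ∀ β < α, Good z T e β) (A : Set X)
    (hA : bp z α ∈ closure (F z '' (A ∩ XX α))) (δ : ℝ) (hδ : 0 < δ) (n : ℕ) :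
    ∃ (δ' : ℝ) (q : R3) (N C : Set X) (k : @Homeomorph X X (top e (Iio α)) (top e (Iio α))),
      Shell z α (top e (Iio α)) A n δ δ' q N C k := by
  have ha : ∀ β ∈ Iio α, Att (top e (Iio β)) β (e β) := fun β hβ => (h β hβ).att
  have hT2 : @T2Space X (top e (Iio α)) := t2 ha (isLowerSet_Iio α)
  have hXo : IsOpen[top e (Iio α)] (XX α) := isOpen_XX ha (isLowerSet_Iio α)
  obtain ⟨_, ⟨x, ⟨hxA, hxα⟩, rfl⟩, hx1⟩ := Metric.mem_closure_iff.1 hA δ hδ
  have hne := F_ne hz hxα
  have hd : 0 < dist (F z x) (bp z α) := dist_pos.2 hne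
  rw [dist_comm] at hx1
  set d := dist (F z x) (bp z α) with hdd
  obtain ⟨V, hV, hxV, hVt⟩ := exists_thin h hxα n
  -- the neighbourhood
  set W : Set R3 := {p | d / 2 < dist p (bp z α)} ∩ {p | dist p (bp z α) < δ} with hW
  have hWo : IsOpen W := (isOpen_lt continuous_const (continuous_id.dist continuous_const)).inter
    (isOpen_lt (continuous_id.dist continuous_const) continuous_const)
  have hFW : IsOpen[top e (Iio α)] (F z ⁻¹' W) := F_open (fun β hβ => (h β hβ).cF) hWo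
  let N : Set X := (V ∩ XX α) ∩ F z ⁻¹' W
  have hNo : IsOpen[top e (Iio α)] N := by
    let _ := top e (Iio α)
    exact (IsOpen.inter hV hXo).inter hFW
  have hxN : x ∈ N := ⟨⟨hxV, hxα⟩, by
    show d / 2 < dist (F z x) (bp z α)
    linarith, hx1⟩
  obtain ⟨φ, hφ, hxφ⟩ := exists_chart h hxα
  obtain ⟨U, hUo, hxU, hU⟩ := @hom_local X (top e (Iio α)) hT2 N hNo x hxN φ hφ hxφ
  have hUN : IsOpen[top e (Iio α)] (U ∩ N) := by
    let _ := top e (Iio α)
    exact IsOpen.inter hUo hNo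
  obtain ⟨q, hqU, hqN⟩ := dense_inl ha (isLowerSet_Iio α) hUN ⟨hxU, hxN⟩ (fun β r hx' => by
    rw [hx'] at hxα; exact hxα)
  obtain ⟨k, hk, C, hC, hCN, hid⟩ := hU _ hqU
  have hCc : IsClosed[top e (Iio α)] C := by
    let _ := top e (Iio α)
    exact IsCompact.isClosed hC
  refine ⟨min (d / 2) (Real.exp q.1 / 2), q, N, C, @Homeomorph.symm X X (top e (Iio α)) (top e (Iio α)) k, ?_⟩
  have hq := Real.exp_pos q.1
  refine ⟨lt_min (by positivity) (by positivity), ?_, ?_, hNo, hCc, hCN, ?_, ?_, ?_, ?_, ?_, hqN, ?_⟩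
  · exact (min_le_left _ _).trans_lt (by linarith)
  · exact (min_le_right _ _).trans_lt (by linarith)
  · intro y hy
    let _ := top e (Iio α)
    exact (Homeomorph.symm_apply_eq k).2 (hid y hy).symm
  · intro γ r r' h1 h2
    exact hVt γ r r' h1.1.1 h2.1.1
  · exact fun y hy => hy.1.2
  · exact fun y hy => (min_le_left _ _).trans_lt hy.2.1
  · exact fun y hy => hy.2.2
  · have : @Homeomorph.symm X X (top e (Iio α)) (top e (Iio α)) k (Sum.inl q) = x := by
      let _ := top e (Iio α)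
      exact (Homeomorph.symm_apply_eq k).2 hk.symm
    rw [this]
    exact hxA

end Pool.Agent.Helper102.RZ
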