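import Pool.Agent.Helper102.RZ.GG
import Pool.Agent.Helper102.RZ.Abs

set_option autoImplicit false

open Set Filter Topology

namespace Pool.Agent.Helper102.RZ

open Pool.Agent.Helper732.HN

variable {z : Om → ℝ × ℝ} {T : Om → Set X} {e : Om → R3 → X} {α : Om}

theorem exists_enum {S : Type} [Countable S] [Nonempty S] :
    ∃ a : ℕ → S, ∀ s, ∀ n, ∃ i, n ≤ i ∧ a i = s := by
  obtain ⟨f, hf⟩ := exists_surjective_nat S
  refine ⟨fun i => f (Nat.unpair i).1, fun s n => ?_⟩
  obtain ⟨m, rfl⟩ := hf s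
  exact ⟨Nat.pair m n, Nat.right_le_pair m n, by simp⟩

theorem exists_seq (hz : Function.Injective z) (h : ∀ β < α, Good z T e β) (A : ℕ → Set X)
    (hA : ∀ i, bp z α ∈ closure (F z '' (A i ∩ XX α))) (ε : ℕ → ℝ) (hε : ∀ i, 0 < ε i)
    (hε0 : Tendsto ε atTop (𝓝 0)) :
    ∃ (δ : ℕ → ℝ) (q : ℕ → R3) (N C : ℕ → Set X)
      (k : ℕ → @Homeomorph X X (top e (Iio α)) (top e (Iio α))),
      StrictAnti δ ∧ Tendsto δ atTop (𝓝 0) ∧
      ∀ i, Shell z α (top e (Iio α)) (A i) i (min (δ i) (ε i)) (δ (i + 1)) (q i) (N i) (C i)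
        (k i) := by
  have hp : ∀ (i : ℕ) (d : {d : ℝ // 0 < d}), ∃ (δ' : ℝ) (q : R3) (N C : Set X)
      (k : @Homeomorph X X (top e (Iio α)) (top e (Iio α))),
      Shell z α (top e (Iio α)) (A i) i (min d.1 (ε i)) δ' q N C k := fun i d =>
    pick hz h (A i) (hA i) (min d.1 (ε i)) (lt_min d.2 (hε i)) i
  choose δ' q N C k hS using hp
  let s : ℕ → {d : ℝ // 0 < d} := fun i =>
    Nat.rec ⟨1, one_pos⟩ (fun i d => ⟨δ' i d, (hS i d).pos⟩) i
  have hs : ∀ i, (s (i + 1)).1 = δ' i (s i) := fun i => rfl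
  have hlt : ∀ i, (s (i + 1)).1 < min (s i).1 (ε i) := fun i => by
    rw [hs]; exact (hS i (s i)).lt
  refine ⟨fun i => (s i).1, fun i => q i (s i), fun i => N i (s i), fun i => C i (s i),
    fun i => k i (s i), ?_, ?_, fun i => hS i (s i)⟩
  · exact strictAnti_nat_of_succ_lt fun i => (hlt i).trans_le (min_le_left _ _)
  · rw [← tendsto_add_atTop_iff_nat 1]
    refine squeeze_zero (fun i => (s (i + 1)).2.le) (fun i => ?_) hε0
    exact ((hlt i).trans_le (min_le_right _ _)).le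

/-- the tasks at stage `α` -/
def Tasks (z : Om → ℝ × ℝ) (T : Om → Set X) (α : Om) : Set (Set X) :=
  insert univ {A | ∃ β < α, A = T β ∧ bp z α ∈ closure (F z '' (T β ∩ XX α))}

theorem tasks_countable : (Tasks z T α).Countable := by
  refine Set.Countable.insert _ ?_
  refine ((om_countable α).image T).mono ?_
  rintro A ⟨β, hβ, rfl, -⟩
  exact ⟨β, hβ, rfl⟩

theorem tasks_mem {A : Set X} (hA : A ∈ Tasks z T α) :
    bp z α ∈ closure (F z '' (A ∩ XX α)) := by
  rcases hA with rfl | ⟨β, hβ, rfl, h⟩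
  · rw [Metric.mem_closure_iff]
    intro ε hε
    refine ⟨_, ⟨Sum.inl (Real.log (ε / 2), z α), ⟨trivial, inl_mem_XX _ _⟩, rfl⟩, ?_⟩
    show dist ((0, z α) : R3) (Real.exp (Real.log (ε / 2)), z α) < ε
    rw [Real.exp_log (by positivity), Prod.dist_eq, dist_self, Real.dist_eq, zero_sub, abs_neg,
      abs_of_pos (by positivity)]
    exact max_lt (by linarith) hε
  · exact h

theorem exists_HP (hz : Function.Injective z) (h : ∀ β < α, Good z T e β) :
    ∃ (c : ℝ → ℝ × ℝ) (g : X ≃ X), Continuous c ∧ c 0 = z α ∧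
      HP z T (top e (Iio α)) α c g := by
  haveI : Countable (Tasks z T α) := tasks_countable.to_subtype
  haveI : Nonempty (Tasks z T α) := ⟨⟨univ, Or.inl rfl⟩⟩
  obtain ⟨a, ha⟩ := exists_enum (S := Tasks z T α × NNRat)
  let r : ℕ → ℝ := fun i => (((a i).2 : NNRat) : ℝ)
  have hr : ∀ i, 0 ≤ r i := fun i => by positivity
  let ε : ℕ → ℝ := fun i => 1 / (((i : ℝ) + 1) * (1 + Real.sqrt (r i)))
  have hε : ∀ i, 0 < ε i := fun i => by
    have := Real.sqrt_nonneg (r i)
    positivity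
  have hεle : ∀ i, ε i ≤ 1 / ((i : ℝ) + 1) := fun i => by
    have h1 := Real.sqrt_nonneg (r i)
    apply one_div_le_one_div_of_le (by positivity)
    have h2 : (0 : ℝ) < (i : ℝ) + 1 := by positivity
    nlinarith
  have hεr : ∀ i, ε i * Real.sqrt (r i) ≤ 1 / ((i : ℝ) + 1) := fun i => by
    have h1 := Real.sqrt_nonneg (r i)
    show 1 / (((i : ℝ) + 1) * (1 + Real.sqrt (r i))) * Real.sqrt (r i) ≤ 1 / ((i : ℝ) + 1)
    rw [div_mul_eq_mul_div, one_mul, div_le_div_iff₀ (by positivity) (by positivity)]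
    have h2 : (0 : ℝ) < (i : ℝ) + 1 := by positivity
    nlinarith
  have h1i : Tendsto (fun i : ℕ => 1 / ((i : ℝ) + 1)) atTop (𝓝 0) :=
    tendsto_one_div_add_atTop_nhds_zero_nat
  have hε0 : Tendsto ε atTop (𝓝 0) := squeeze_zero (fun i => (hε i).le) hεle h1i
  obtain ⟨δ, q, N, C, k, hδ, hδ0, hS⟩ := exists_seq hz h (fun i => ((a i).1 : Set X))
    (fun i => tasks_mem (a i).1.2) ε hε hε0
  have hδpos : ∀ i, 0 < δ (i + 1) := fun i => (hS i).pos
  have hDN : ∀ i, ∀ x ∈ N i, δ (i + 1) < dist (F z x) (bp z α) ∧ dist (F z x) (bp z α) < δ i :=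
    fun i x hx => ⟨(hS i).lo x hx, ((hS i).hi x hx).trans_le (min_le_left _ _)⟩
  have hq : ∀ i, dist (F z (Sum.inl (q i))) (bp z α) < min (δ i) (ε i) := fun i =>
    (hS i).hi _ (hS i).qN
  -- heights
  let u : ℕ → ℝ := fun i => Real.exp (q i).1
  have hFq : ∀ i, F z (Sum.inl (q i)) = (u i, (q i).2) := fun i => rfl
  have hu1 : ∀ i, u i < min (δ i) (ε i) := fun i => by
    refine lt_of_le_of_lt ?_ (hq i)
    rw [hFq]
    refine le_trans ?_ (le_max_left _ _ : dist (u i) 0 ≤ _)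
    rw [Real.dist_eq, sub_zero]
    exact le_abs_self _
  have hu2 : ∀ i, dist (q i).2 (z α) < min (δ i) (ε i) := fun i => by
    refine lt_of_le_of_lt ?_ (hq i)
    rw [hFq]
    exact le_max_right (dist (u i) 0) (dist (q i).2 (z α))
  have hupos : ∀ i, 0 < u i := fun i => Real.exp_pos _
  have hu : StrictAnti u := strictAnti_nat_of_succ_lt fun i =>
    ((hu1 (i + 1)).trans_le (min_le_left _ _)).trans (hS i).hgt
  have hu0 : Tendsto u atTop (𝓝 0) :=
    squeeze_zero (fun i => (hupos i).le) (fun i => ((hu1 i).trans_le (min_le_right _ _)).le) hε0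
  let b : ℕ → ℝ × ℝ := fun i => ((q i).2.1 - u i * Real.sqrt (r i), (q i).2.2)
  have hq0 : Tendsto (fun i => (q i).2) atTop (𝓝 (z α)) := by
    rw [tendsto_iff_dist_tendsto_zero]
    exact squeeze_zero (fun _ => dist_nonneg)
      (fun i => ((hu2 i).trans_le (min_le_right _ _)).le) hε0
  have hur : Tendsto (fun i => u i * Real.sqrt (r i)) atTop (𝓝 0) := by
    refine squeeze_zero (fun i => mul_nonneg (hupos i).le (Real.sqrt_nonneg _)) (fun i => ?_) h1i
    refine le_trans ?_ (hεr i)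
    exact mul_le_mul_of_nonneg_right ((hu1 i).trans_le (min_le_right _ _)).le (Real.sqrt_nonneg _)
  have hb : Tendsto b atTop (𝓝 (z α)) := by
    have h3 : Tendsto (fun i => (q i).2.1 - u i * Real.sqrt (r i)) atTop (𝓝 ((z α).1)) := by
      have := ((continuous_fst.tendsto (z α)).comp hq0).sub hur
      rwa [sub_zero] at this
    have h4 : Tendsto (fun i => (q i).2.2) atTop (𝓝 ((z α).2)) :=
      (continuous_snd.tendsto (z α)).comp hq0
    exact h3.prodMk_nhds h4
  obtain ⟨c, hc, hc0, hcb⟩ := exists_interp u hu hupos hu0 b (z α) hb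
  -- the homeomorphism
  have hDc : @Continuous X ℝ (top e (Iio α)) _ (fun x => dist (F z x) (bp z α)) := by
    let _ := top e (Iio α)
    exact (F_continuous fun β hβ => (h β hβ).cF).dist continuous_const
  obtain ⟨g, hg1, hg2, hg3, hg4⟩ := @glue_homeo X (top e (Iio α))
    (fun x => dist (F z x) (bp z α)) hDc δ hδ hδ0 N C (fun i => (hS i).oN) (fun i => (hS i).cC)
    (fun i => (hS i).sub) hDN k (fun i => (hS i).off)
  refine ⟨c, g, hc, hc0, hg3, hg4, ?_, ?_, ?_, ?_, ?_⟩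
  · intro x hx
    by_cases hN : ∃ i, x ∈ N i
    · obtain ⟨i, hi⟩ := hN
      exact (hS i).NX (hg1 i x hi).2
    · push Not at hN
      rw [hg2 x hN]; exact hx
  · intro η hη
    obtain ⟨m, hm⟩ : ∃ m, δ m < η := (hδ0.eventually (gt_mem_nhds hη)).exists
    refine ⟨δ (m + 1), hδpos m, fun x hx => ?_⟩
    by_cases hN : ∃ i, x ∈ N i
    · obtain ⟨i, hi⟩ := hN
      have h3 := (hDN i x hi).1
      have h4 : m < i := by
        by_contra hcon
        push Not at hcon
        have : δ (m + 1) ≤ δ (i + 1) := hδ.antitone (Nat.succ_le_succ hcon)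
        linarith
      have h5 := (hDN i _ (hg1 i x hi).2).2
      have h6 : δ i ≤ δ m := hδ.antitone h4.le
      linarith
    · push Not at hN
      rw [hg2 x hN]
      exact hx.trans ((hδ (Nat.lt_succ_self m)).trans hm)
  · intro x hx
    by_cases hN : ∃ i, x ∈ N i
    · obtain ⟨i, hi⟩ := hN
      exact (hδpos i).trans (hDN i _ (hg1 i x hi).2).1
    · push Not at hN
      rw [hg2 x hN]; exact hx
  · intro n
    refine ⟨δ (n + 1), hδpos n, ?_⟩
    have key : ∀ (γ : Om) (s : NNReal) (p : R3), dist (F z (Sum.inl p)) (bp z α) < δ (n + 1) →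
        (Sum.inr (γ, s) : X) = g (Sum.inl p) → ∃ i, n ≤ i ∧ (Sum.inr (γ, s) : X) ∈ N i := by
      intro γ s p hp hgp
      by_cases hN : ∃ i, (Sum.inl p : X) ∈ N i
      · obtain ⟨i, hi⟩ := hN
        refine ⟨i, ?_, ?_⟩
        · by_contra hcon
          push Not at hcon
          have h3 := (hDN i _ hi).1
          have : δ (n + 1) ≤ δ (i + 1) := hδ.antitone (Nat.succ_le_succ hcon.le)
          linarith
        · rw [hgp]; exact (hg1 i _ hi).2
      · push Not at hN
        rw [hg2 _ hN] at hgp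
        exact absurd hgp (by simp)
    rintro γ s s' ⟨p, hp, hgp⟩ ⟨p', hp', hgp'⟩
    obtain ⟨i, hi, hiN⟩ := key γ s p hp hgp
    obtain ⟨j, hj, hjN⟩ := key γ s' p' hp' hgp'
    have hij : i = j := by
      have h3 := hDN i _ hiN
      have h4 := hDN j _ hjN
      have h5 : F z (Sum.inr (γ, s)) = F z (Sum.inr (γ, s')) := rfl
      rw [h5] at h3
      rcases lt_trichotomy i j with hlt | heq | hgt
      · exfalso
        have : δ j ≤ δ (i + 1) := hδ.antitone hlt
        linarith [h3.1, h4.2]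
      · exact heq
      · exfalso
        have : δ i ≤ δ (j + 1) := hδ.antitone hgt
        linarith [h4.1, h3.2]
    subst hij
    refine ((hS i).thin γ s s' hiN hjN).trans ?_
    apply one_div_le_one_div_of_le (by positivity)
    have : (n : ℝ) ≤ i := by exact_mod_cast hi
    linarith
  · intro β hβ hcl w hw B hB hwB
    have hA : T β ∈ Tasks z T α := Or.inr ⟨β, hβ, rfl, hcl⟩
    -- a rational target
    have hw0 : w = (w.1, (0, 0)) := Prod.ext rfl hw.2
    have hcont : Continuous fun s : ℝ => ((s, (0, 0)) : R3) := by fun_prop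
    have h0 : IsOpen ((fun s : ℝ => ((s, (0, 0)) : R3)) ⁻¹' B) := hB.preimage hcont
    have h1 : w.1 ∈ (fun s : ℝ => ((s, (0, 0)) : R3)) ⁻¹' B := by
      show ((w.1, (0, 0)) : R3) ∈ B
      rw [← hw0]; exact hwB
    obtain ⟨η, hη, hball⟩ := Metric.isOpen_iff.1 h0 _ h1
    have hw1 : (0 : ℝ) ≤ w.1 := hw.1
    obtain ⟨ρ, hρ1, hρ2⟩ := exists_rat_btwn (show w.1 < w.1 + η by linarith)
    have hρ0 : (0 : ℝ) ≤ (ρ : ℝ) := by linarith
    have hρ0' : 0 ≤ ρ := by exact_mod_cast hρ0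
    let ρ' : NNRat := ⟨ρ, hρ0'⟩
    have hρB : (((ρ : ℝ), (0, 0)) : R3) ∈ B := by
      apply hball
      rw [Metric.mem_ball, Real.dist_eq, abs_of_pos (by linarith)]
      linarith
    -- the points tend to the target
    have hlim : Tendsto (fun s : ℝ => (((ρ : ℝ) - s ^ 2, (2 * s * Real.sqrt ρ, 0)) : R3)) (𝓝 0)
        (𝓝 ((ρ : ℝ), (0, 0))) := by
      have hc' : Continuous fun s : ℝ => (((ρ : ℝ) - s ^ 2, (2 * s * Real.sqrt ρ, 0)) : R3) := by
        fun_prop
      have := hc'.tendsto 0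
      simpa using this
    have hev : ∀ᶠ i in atTop, (((ρ : ℝ) - u i ^ 2, (2 * u i * Real.sqrt ρ, 0)) : R3) ∈ B :=
      (hlim.comp hu0).eventually (hB.mem_nhds hρB)
    obtain ⟨n, hn⟩ := eventually_atTop.1 hev
    obtain ⟨i, hi, hai⟩ := ha (⟨T β, hA⟩, ρ') n
    refine ⟨q i, ?_, ?_⟩
    · have hri : r i = ρ := by
        show (((a i).2 : NNRat) : ℝ) = ρ
        rw [hai]
        rfl
      have h5 : I0 c (q i) = (((ρ : ℝ) - u i ^ 2, (2 * u i * Real.sqrt ρ, 0)) : R3) := by
        unfold I0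
        rw [show c (Real.exp (q i).1) = b i from hcb i]
        have hui := (hupos i).ne'
        show pari (u i, ((q i).2.1 - ((q i).2.1 - u i * Real.sqrt (r i))) / u i,
          ((q i).2.2 - (q i).2.2) / u i) = _
        rw [sub_self, zero_div, sub_sub_cancel, mul_div_cancel_left₀ _ hui, hri]
        show ((Real.sqrt ρ ^ 2 + (0 : ℝ) ^ 2 - u i ^ 2, 2 * u i * Real.sqrt ρ, 2 * u i * 0) : R3) = _
        rw [Real.sq_sqrt hρ0, mul_zero]
        simp
      rw [h5]
      exact hn i hi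
    · rw [(hg1 i _ (hS i).qN).1]
      have h6 := (hS i).img
      rw [hai] at h6
      exact h6

end Pool.Agent.Helper102.RZ
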